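import Pool.Agent.Helper10.BD.Goals

/-! Packet CIR of project BD (helper10, MP_eec6f5_gt). -/

set_option autoImplicit false

open scoped ContDiff
open Pool.Agent.Helper50.BC (E)

namespace Pool.Agent.Helper30.BD.CIR

/-- the coordinates of the map -/
noncomputable def cc (q k : ℕ) (p : E q × E (q + k)) : Fin (q + (q + k)) → ℝ :=
  Fin.append (fun i => (2 / 5 + p.2 (Fin.castAdd k i)) * Real.sin (10 / 3 * p.1 i))
    (Fin.append (fun i => (2 / 5 + p.2 (Fin.castAdd k i)) * Real.cos (10 / 3 * p.1 i))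
      (fun i => p.2 (Fin.natAdd q i)))

/-- first derivative -/
noncomputable def d1 (q k : ℕ) (p ξ : E q × E (q + k)) : Fin (q + (q + k)) → ℝ :=
  Fin.append (fun i => ξ.2 (Fin.castAdd k i) * Real.sin (10 / 3 * p.1 i) +
      (2 / 5 + p.2 (Fin.castAdd k i)) * (Real.cos (10 / 3 * p.1 i) * (10 / 3 * ξ.1 i)))
    (Fin.append (fun i => ξ.2 (Fin.castAdd k i) * Real.cos (10 / 3 * p.1 i) +
      (2 / 5 + p.2 (Fin.castAdd k i)) * (-Real.sin (10 / 3 * p.1 i) * (10 / 3 * ξ.1 i)))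
      (fun i => ξ.2 (Fin.natAdd q i)))

/-- second derivative -/
noncomputable def d2 (q k : ℕ) (p ξ : E q × E (q + k)) : Fin (q + (q + k)) → ℝ :=
  Fin.append (fun i => ξ.2 (Fin.castAdd k i) * (Real.cos (10 / 3 * p.1 i) * (10 / 3 * ξ.1 i)) +
      (ξ.2 (Fin.castAdd k i) * (Real.cos (10 / 3 * p.1 i) * (10 / 3 * ξ.1 i)) +
        (2 / 5 + p.2 (Fin.castAdd k i)) *
          (-Real.sin (10 / 3 * p.1 i) * (10 / 3 * ξ.1 i) * (10 / 3 * ξ.1 i))))
    (Fin.append (fun i => ξ.2 (Fin.castAdd k i) * (-Real.sin (10 / 3 * p.1 i) * (10 / 3 * ξ.1 i)) +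
      (ξ.2 (Fin.castAdd k i) * (-Real.sin (10 / 3 * p.1 i) * (10 / 3 * ξ.1 i)) +
        (2 / 5 + p.2 (Fin.castAdd k i)) *
          (-(Real.cos (10 / 3 * p.1 i) * (10 / 3 * ξ.1 i)) * (10 / 3 * ξ.1 i))))
      (fun _ => 0))

/-- the map -/
noncomputable def Ps (q k : ℕ) (p : E q × E (q + k)) : E (q + (q + k)) := WithLp.toLp 2 (cc q k p)

lemma hd {n : ℕ} (g : ℝ → Fin n → ℝ) (g' : Fin n → ℝ) (t : ℝ)
    (h : ∀ i, HasDerivAt (fun t => g t i) (g' i) t) :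
    HasDerivAt (fun t => (WithLp.toLp 2 (g t) : E n)) (WithLp.toLp 2 g') t := by
  have h1 : HasDerivAt g g' t := hasDerivAt_pi.2 h
  exact ((PiLp.continuousLinearEquiv 2 ℝ (fun _ : Fin n => ℝ)).symm.toContinuousLinearMap.hasFDerivAt
    (x := g t)).comp_hasDerivAt t h1

lemma smooth (q k : ℕ) : ContDiff ℝ ∞ (Ps q k) := by
  rw [contDiff_euclidean]
  intro i
  have hp1 : ∀ i, ContDiff ℝ ∞ (fun p : E q × E (q + k) => p.1 i) := fun i =>
    (contDiff_euclidean.1 (contDiff_fst (𝕜 := ℝ) (n := ∞))) i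
  have hp2 : ∀ i, ContDiff ℝ ∞ (fun p : E q × E (q + k) => p.2 i) := fun i =>
    (contDiff_euclidean.1 (contDiff_snd (𝕜 := ℝ) (n := ∞))) i
  refine Fin.addCases (fun i => ?_) (fun i => ?_) i
  · have : (fun p => (Ps q k p) (Fin.castAdd (q + k) i)) =
        fun p : E q × E (q + k) => (2 / 5 + p.2 (Fin.castAdd k i)) *
          Real.sin (10 / 3 * p.1 i) := by
      funext p; simp [Ps, cc]
    rw [this]
    exact (contDiff_const.add (hp2 _)).mul (Real.contDiff_sin.comp (contDiff_const.mul (hp1 i)))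
  · refine Fin.addCases (fun i => ?_) (fun i => ?_) i
    · have : (fun p => (Ps q k p) (Fin.natAdd q (Fin.castAdd k i))) =
          fun p : E q × E (q + k) => (2 / 5 + p.2 (Fin.castAdd k i)) *
            Real.cos (10 / 3 * p.1 i) := by
        funext p; simp [Ps, cc]
      rw [this]
      exact (contDiff_const.add (hp2 _)).mul (Real.contDiff_cos.comp (contDiff_const.mul (hp1 i)))
    · have : (fun p => (Ps q k p) (Fin.natAdd q (Fin.natAdd q i))) =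
          fun p : E q × E (q + k) => p.2 (Fin.natAdd q i) := by
        funext p; simp [Ps, cc]
      rw [this]
      exact hp2 _

lemma lin1 {q k : ℕ} (p ξ : E q × E (q + k)) (i : Fin q) (t : ℝ) :
    HasDerivAt (fun t : ℝ => (p + t • ξ).1 i) (ξ.1 i) t := by
  have h1 : (fun t : ℝ => (p + t • ξ).1 i) = fun t => p.1 i + t * ξ.1 i := by
    funext t; simp
  rw [h1]
  simpa using ((hasDerivAt_id t).mul_const (ξ.1 i)).const_add (p.1 i)

lemma lin2 {q k : ℕ} (p ξ : E q × E (q + k)) (i : Fin (q + k)) (t : ℝ) :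
    HasDerivAt (fun t : ℝ => (p + t • ξ).2 i) (ξ.2 i) t := by
  have h1 : (fun t : ℝ => (p + t • ξ).2 i) = fun t => p.2 i + t * ξ.2 i := by
    funext t; simp
  rw [h1]
  simpa using ((hasDerivAt_id t).mul_const (ξ.2 i)).const_add (p.2 i)

lemma line1 (q k : ℕ) (p ξ : E q × E (q + k)) :
    HasDerivAt (fun t : ℝ => Ps q k (p + t • ξ)) (WithLp.toLp 2 (d1 q k p ξ)) 0 := by
  have e0 : p + (0 : ℝ) • ξ = p := by simp
  refine hd (fun t => cc q k (p + t • ξ)) (d1 q k p ξ) 0 fun i => ?_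
  refine Fin.addCases (fun i => ?_) (fun i => ?_) i
  · simp only [cc, d1, Fin.append_left]
    have h1 := (lin2 p ξ (Fin.castAdd k i) 0).const_add (2 / 5)
    have h2 := ((lin1 p ξ i 0).const_mul (10 / 3)).sin
    have h3 := h1.mul h2
    rw [e0] at h3
    exact h3
  · refine Fin.addCases (fun i => ?_) (fun i => ?_) i
    · simp only [cc, d1, Fin.append_right, Fin.append_left]
      have h1 := (lin2 p ξ (Fin.castAdd k i) 0).const_add (2 / 5)
      have h2 := ((lin1 p ξ i 0).const_mul (10 / 3)).cos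
      have h3 := h1.mul h2
      rw [e0] at h3
      exact h3
    · simp only [cc, d1, Fin.append_right]
      exact lin2 p ξ (Fin.natAdd q i) 0

lemma line2 (q k : ℕ) (p ξ : E q × E (q + k)) :
    HasDerivAt (fun t : ℝ => (WithLp.toLp 2 (d1 q k (p + t • ξ) ξ) : E (q + (q + k))))
      (WithLp.toLp 2 (d2 q k p ξ)) 0 := by
  have e0 : p + (0 : ℝ) • ξ = p := by simp
  refine hd (fun t => d1 q k (p + t • ξ) ξ) (d2 q k p ξ) 0 fun i => ?_
  refine Fin.addCases (fun i => ?_) (fun i => ?_) i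
  · simp only [d1, d2, Fin.append_left]
    have h1 := (lin2 p ξ (Fin.castAdd k i) 0).const_add (2 / 5)
    have h2 := ((lin1 p ξ i 0).const_mul (10 / 3)).sin
    have h2' := ((lin1 p ξ i 0).const_mul (10 / 3)).cos
    have h3 := (h2.const_mul (ξ.2 (Fin.castAdd k i))).add (h1.mul (h2'.mul_const (10 / 3 * ξ.1 i)))
    rw [e0] at h3
    exact h3
  · refine Fin.addCases (fun i => ?_) (fun i => ?_) i
    · simp only [d1, d2, Fin.append_right, Fin.append_left]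
      have h1 := (lin2 p ξ (Fin.castAdd k i) 0).const_add (2 / 5)
      have h2 := ((lin1 p ξ i 0).const_mul (10 / 3)).sin
      have h2' := ((lin1 p ξ i 0).const_mul (10 / 3)).cos
      have h3 := (h2'.const_mul (ξ.2 (Fin.castAdd k i))).add
        (h1.mul (h2.neg.mul_const (10 / 3 * ξ.1 i)))
      refine HasDerivAt.congr_deriv h3 ?_
      simp
    · simp only [d1, d2, Fin.append_right]
      exact hasDerivAt_const _ _

lemma fd1 (q k : ℕ) (p ξ : E q × E (q + k)) :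
    fderiv ℝ (Ps q k) p ξ = WithLp.toLp 2 (d1 q k p ξ) := by
  have h1 : HasFDerivAt (Ps q k) (fderiv ℝ (Ps q k) p) p :=
    ((smooth q k).differentiable (by simp) p).hasFDerivAt
  have h2 : HasDerivAt (fun t : ℝ => p + t • ξ) ξ 0 := by
    simpa using ((hasDerivAt_id (0 : ℝ)).smul_const ξ).const_add p
  have h3 : HasDerivAt (fun t : ℝ => Ps q k (p + t • ξ)) (fderiv ℝ (Ps q k) p ξ) 0 := by
    have h1' : HasFDerivAt (Ps q k) (fderiv ℝ (Ps q k) p) (p + (0 : ℝ) • ξ) := by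
      simpa using h1
    exact h1'.comp_hasDerivAt (0 : ℝ) h2
  exact h3.unique (line1 q k p ξ)

lemma fd2 (q k : ℕ) (p ξ : E q × E (q + k)) :
    fderiv ℝ (fderiv ℝ (Ps q k)) p ξ ξ = WithLp.toLp 2 (d2 q k p ξ) := by
  have hs : ContDiff ℝ ∞ (fderiv ℝ (Ps q k)) := (smooth q k).fderiv_right (m := ∞) (by simp)
  have h1 : HasFDerivAt (fderiv ℝ (Ps q k)) (fderiv ℝ (fderiv ℝ (Ps q k)) p) p :=
    (hs.differentiable (by simp) p).hasFDerivAt
  have h2 : HasDerivAt (fun t : ℝ => p + t • ξ) ξ 0 := by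
    simpa using ((hasDerivAt_id (0 : ℝ)).smul_const ξ).const_add p
  have h3 : HasDerivAt (fun t : ℝ => fderiv ℝ (Ps q k) (p + t • ξ))
      (fderiv ℝ (fderiv ℝ (Ps q k)) p ξ) 0 := by
    have h1' : HasFDerivAt (fderiv ℝ (Ps q k)) (fderiv ℝ (fderiv ℝ (Ps q k)) p)
        (p + (0 : ℝ) • ξ) := by
      simpa using h1
    exact h1'.comp_hasDerivAt (0 : ℝ) h2
  have h4 : HasDerivAt (fun t : ℝ => fderiv ℝ (Ps q k) (p + t • ξ) ξ)
      (fderiv ℝ (fderiv ℝ (Ps q k)) p ξ ξ) 0 := by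
    have := h3.clm_apply (hasDerivAt_const (0 : ℝ) ξ)
    simpa using this
  have e : (fun t : ℝ => fderiv ℝ (Ps q k) (p + t • ξ) ξ) =
      fun t : ℝ => (WithLp.toLp 2 (d1 q k (p + t • ξ) ξ) : E (q + (q + k))) := by
    funext t
    exact fd1 q k _ ξ
  rw [e] at h4
  exact h4.unique (line2 q k p ξ)

lemma nsq (q k : ℕ) (a b : Fin q → ℝ) (c : Fin k → ℝ) :
    ‖(WithLp.toLp 2 (Fin.append a (Fin.append b c)) : E (q + (q + k)))‖ ^ 2 =
      ∑ i, (a i ^ 2 + b i ^ 2) + ∑ i, c i ^ 2 := by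
  rw [EuclideanSpace.norm_sq_eq, Fin.sum_univ_add, Fin.sum_univ_add, Finset.sum_add_distrib,
    add_assoc]
  simp

lemma nsq2 (q k : ℕ) (v : E (q + k)) :
    ‖v‖ ^ 2 = ∑ i, v (Fin.castAdd k i) ^ 2 + ∑ i, v (Fin.natAdd q i) ^ 2 := by
  rw [EuclideanSpace.norm_sq_eq, Fin.sum_univ_add]
  simp

lemma nsq1 (q : ℕ) (v : E q) : ‖v‖ ^ 2 = ∑ i, v i ^ 2 := by
  rw [EuclideanSpace.norm_sq_eq]
  simp

theorem t : Pool.Agent.Helper10.BD.G_CIR := by
  intro q j hqj hq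
  obtain ⟨k, rfl⟩ := Nat.exists_eq_add_of_le hqj
  refine ⟨Ps q k, smooth q k, ?_⟩
  rintro ⟨x, v⟩ hv
  simp only at hv
  have hv2 : ‖v‖ ^ 2 ≤ 1 / 100 := by
    have := norm_nonneg v
    nlinarith
  have hvi : ∀ i : Fin q, |v (Fin.castAdd k i)| ≤ 1 / 10 := by
    intro i
    have h := EuclideanSpace.norm_sq_eq v
    have h1 : ‖v (Fin.castAdd k i)‖ ≤ ‖v‖ := PiLp.norm_apply_le v _
    rw [Real.norm_eq_abs] at h1
    exact h1.trans hv
  have hA : ∀ i : Fin q, 1 ≤ 10 / 3 * (2 / 5 + v (Fin.castAdd k i)) ∧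
      10 / 3 * (2 / 5 + v (Fin.castAdd k i)) ≤ 5 / 3 := by
    intro i
    have := abs_le.1 (hvi i)
    constructor <;> linarith [this.1, this.2]
  refine ⟨?_, ?_, ?_, ?_⟩
  · -- size
    have h1 : ‖Ps q k (x, v)‖ ^ 2 = ∑ i : Fin q, (2 / 5 + v (Fin.castAdd k i)) ^ 2 +
        ∑ i, v (Fin.natAdd q i) ^ 2 := by
      rw [show Ps q k (x, v) = WithLp.toLp 2 (cc q k (x, v)) from rfl, cc, nsq]
      congr 1
      refine Finset.sum_congr rfl fun i _ => ?_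
      have := Real.sin_sq_add_cos_sq (10 / 3 * x i)
      simp only
      linear_combination (2 / 5 + v (Fin.castAdd k i)) ^ 2 * this
    have h2 : ∑ i : Fin q, (2 / 5 + v (Fin.castAdd k i)) ^ 2 ≤
        ∑ i : Fin q, (4 / 25 + 4 / 5 * (1 / 108) + (1 + 4 / 5 * 27) * v (Fin.castAdd k i) ^ 2) := by
      refine Finset.sum_le_sum fun i _ => ?_
      nlinarith [sq_nonneg (v (Fin.castAdd k i) - 1 / 54)]
    rw [Finset.sum_add_distrib, ← Finset.mul_sum] at h2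
    simp only [Finset.sum_const, Finset.card_univ, Fintype.card_fin, nsmul_eq_mul] at h2
    have h3 := nsq2 q k v
    have h4 : (q : ℝ) ≤ 30 := by exact_mod_cast hq
    have h5 : 0 ≤ ∑ i : Fin q, v (Fin.castAdd k i) ^ 2 := Finset.sum_nonneg fun i _ => sq_nonneg _
    have h6 : 0 ≤ ∑ i : Fin k, v (Fin.natAdd q i) ^ 2 := Finset.sum_nonneg fun i _ => sq_nonneg _
    rw [h1]
    nlinarith
  · rintro ⟨τ, ζ⟩
    rw [fd1, d1, nsq, nsq1 q τ, nsq2 q k ζ, one_mul]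
    simp only
    rw [← add_assoc, ← Finset.sum_add_distrib]
    refine add_le_add_left (Finset.sum_le_sum fun i _ => ?_) _
    have hs := Real.sin_sq_add_cos_sq (10 / 3 * x i)
    obtain ⟨a1, a2⟩ := hA i
    have e : (ζ (Fin.castAdd k i) * Real.sin (10 / 3 * x i) + (2 / 5 + v (Fin.castAdd k i)) *
        (Real.cos (10 / 3 * x i) * (10 / 3 * τ i))) ^ 2 + (ζ (Fin.castAdd k i) *
        Real.cos (10 / 3 * x i) + (2 / 5 + v (Fin.castAdd k i)) *
        (-Real.sin (10 / 3 * x i) * (10 / 3 * τ i))) ^ 2 =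
        ζ (Fin.castAdd k i) ^ 2 + (10 / 3 * (2 / 5 + v (Fin.castAdd k i))) ^ 2 * τ i ^ 2 := by
      linear_combination (ζ (Fin.castAdd k i) ^ 2 +
        (10 / 3 * (2 / 5 + v (Fin.castAdd k i))) ^ 2 * τ i ^ 2) * hs
    rw [e]
    have h1 : (1 : ℝ) ≤ (10 / 3 * (2 / 5 + v (Fin.castAdd k i))) ^ 2 := one_le_pow₀ a1
    nlinarith [mul_le_mul_of_nonneg_right h1 (sq_nonneg (τ i))]
  · rintro ⟨τ, ζ⟩
    rw [fd1, d1, nsq, nsq1 q τ, nsq2 q k ζ]
    simp only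
    rw [← add_assoc, ← Finset.sum_add_distrib, mul_add]
    have hk : 0 ≤ ∑ i : Fin k, ζ (Fin.natAdd q i) ^ 2 := Finset.sum_nonneg fun i _ => sq_nonneg _
    refine add_le_add ?_ (by nlinarith)
    rw [Finset.mul_sum]
    refine Finset.sum_le_sum fun i _ => ?_
    have hs := Real.sin_sq_add_cos_sq (10 / 3 * x i)
    obtain ⟨a1, a2⟩ := hA i
    have e : (ζ (Fin.castAdd k i) * Real.sin (10 / 3 * x i) + (2 / 5 + v (Fin.castAdd k i)) *
        (Real.cos (10 / 3 * x i) * (10 / 3 * τ i))) ^ 2 + (ζ (Fin.castAdd k i) *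
        Real.cos (10 / 3 * x i) + (2 / 5 + v (Fin.castAdd k i)) *
        (-Real.sin (10 / 3 * x i) * (10 / 3 * τ i))) ^ 2 =
        ζ (Fin.castAdd k i) ^ 2 + (10 / 3 * (2 / 5 + v (Fin.castAdd k i))) ^ 2 * τ i ^ 2 := by
      linear_combination (ζ (Fin.castAdd k i) ^ 2 +
        (10 / 3 * (2 / 5 + v (Fin.castAdd k i))) ^ 2 * τ i ^ 2) * hs
    rw [e]
    have h1 : (10 / 3 * (2 / 5 + v (Fin.castAdd k i))) ^ 2 ≤ (5 / 3) ^ 2 := by
      apply pow_le_pow_left₀ (by linarith) a2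
    nlinarith [sq_nonneg (τ i), sq_nonneg (ζ (Fin.castAdd k i)),
      mul_le_mul_of_nonneg_right h1 (sq_nonneg (τ i))]
  · rintro ⟨τ, ζ⟩
    have hT := nsq1 q τ
    have hZ := nsq2 q k ζ
    have hk : 0 ≤ ∑ i : Fin k, ζ (Fin.natAdd q i) ^ 2 := Finset.sum_nonneg fun i _ => sq_nonneg _
    have hZ0 : 0 ≤ ∑ i : Fin q, ζ (Fin.castAdd k i) ^ 2 := Finset.sum_nonneg fun i _ => sq_nonneg _
    have hmain : ‖fderiv ℝ (fderiv ℝ (Ps q k)) (x, v) (τ, ζ) (τ, ζ)‖ ^ 2 ≤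
        (50 / 9) ^ 2 * (‖τ‖ ^ 2 * ‖τ‖ ^ 2) + 400 / 9 * (‖τ‖ ^ 2 * ‖ζ‖ ^ 2) := by
      rw [fd2, d2, nsq]
      simp only
      have h1 : ∀ i : Fin q, (ζ (Fin.castAdd k i) * (Real.cos (10 / 3 * x i) * (10 / 3 * τ i)) +
          (ζ (Fin.castAdd k i) * (Real.cos (10 / 3 * x i) * (10 / 3 * τ i)) +
            (2 / 5 + v (Fin.castAdd k i)) *
              (-Real.sin (10 / 3 * x i) * (10 / 3 * τ i) * (10 / 3 * τ i)))) ^ 2 +
          (ζ (Fin.castAdd k i) * (-Real.sin (10 / 3 * x i) * (10 / 3 * τ i)) +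
          (ζ (Fin.castAdd k i) * (-Real.sin (10 / 3 * x i) * (10 / 3 * τ i)) +
            (2 / 5 + v (Fin.castAdd k i)) *
              (-(Real.cos (10 / 3 * x i) * (10 / 3 * τ i)) * (10 / 3 * τ i)))) ^ 2 ≤
          (50 / 9) ^ 2 * (τ i ^ 2 * ‖τ‖ ^ 2) + 400 / 9 * (τ i ^ 2 * ‖ζ‖ ^ 2) := by
        intro i
        have hs := Real.sin_sq_add_cos_sq (10 / 3 * x i)
        obtain ⟨a1, a2⟩ := hA i
        have t1 : τ i ^ 2 ≤ ‖τ‖ ^ 2 := by
          rw [hT]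
          exact Finset.single_le_sum (f := fun i => τ i ^ 2) (fun i _ => sq_nonneg _)
            (Finset.mem_univ i)
        have z1 : ζ (Fin.castAdd k i) ^ 2 ≤ ‖ζ‖ ^ 2 := by
          rw [hZ]
          have := Finset.single_le_sum (f := fun i => ζ (Fin.castAdd k i) ^ 2)
            (fun i _ => sq_nonneg _) (Finset.mem_univ i)
          simp only at this
          linarith
        set A := 10 / 3 * (2 / 5 + v (Fin.castAdd k i)) with hAd
        have e : (ζ (Fin.castAdd k i) * (Real.cos (10 / 3 * x i) * (10 / 3 * τ i)) +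
          (ζ (Fin.castAdd k i) * (Real.cos (10 / 3 * x i) * (10 / 3 * τ i)) +
            (2 / 5 + v (Fin.castAdd k i)) *
              (-Real.sin (10 / 3 * x i) * (10 / 3 * τ i) * (10 / 3 * τ i)))) ^ 2 +
          (ζ (Fin.castAdd k i) * (-Real.sin (10 / 3 * x i) * (10 / 3 * τ i)) +
          (ζ (Fin.castAdd k i) * (-Real.sin (10 / 3 * x i) * (10 / 3 * τ i)) +
            (2 / 5 + v (Fin.castAdd k i)) *
              (-(Real.cos (10 / 3 * x i) * (10 / 3 * τ i)) * (10 / 3 * τ i)))) ^ 2 =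
            400 / 9 * (τ i ^ 2 * ζ (Fin.castAdd k i) ^ 2) + 100 / 9 * A ^ 2 * (τ i ^ 2 * τ i ^ 2) := by
          rw [hAd]
          linear_combination (400 / 9 * (τ i ^ 2 * ζ (Fin.castAdd k i) ^ 2) + 100 / 9 *
            (10 / 3 * (2 / 5 + v (Fin.castAdd k i))) ^ 2 * (τ i ^ 2 * τ i ^ 2)) * hs
        rw [e]
        have h2 : A ^ 2 ≤ (5 / 3) ^ 2 := pow_le_pow_left₀ (by linarith) a2 2
        have h3 : τ i ^ 2 * τ i ^ 2 ≤ τ i ^ 2 * ‖τ‖ ^ 2 :=
          mul_le_mul_of_nonneg_left t1 (sq_nonneg _)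
        have h4 : τ i ^ 2 * ζ (Fin.castAdd k i) ^ 2 ≤ τ i ^ 2 * ‖ζ‖ ^ 2 :=
          mul_le_mul_of_nonneg_left z1 (sq_nonneg _)
        have h5 : 0 ≤ τ i ^ 2 * τ i ^ 2 := by positivity
        have h6 : 100 / 9 * A ^ 2 * (τ i ^ 2 * τ i ^ 2) ≤ (50 / 9) ^ 2 * (τ i ^ 2 * τ i ^ 2) := by
          apply mul_le_mul_of_nonneg_right _ h5
          linarith
        linarith
      have h2 := Finset.sum_le_sum fun (i : Fin q) (_ : i ∈ Finset.univ) => h1 i
      have h3 : ∑ i, ((50 / 9 : ℝ) ^ 2 * (τ i ^ 2 * ‖τ‖ ^ 2) + 400 / 9 * (τ i ^ 2 * ‖ζ‖ ^ 2)) =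
          (50 / 9) ^ 2 * (‖τ‖ ^ 2 * ‖τ‖ ^ 2) + 400 / 9 * (‖τ‖ ^ 2 * ‖ζ‖ ^ 2) := by
        rw [Finset.sum_add_distrib, ← Finset.mul_sum, ← Finset.mul_sum, ← Finset.sum_mul,
          ← Finset.sum_mul, ← hT]
      rw [h3] at h2
      simp only [ne_eq, OfNat.ofNat_ne_zero, not_false_eq_true, zero_pow, Finset.sum_const_zero,
        add_zero]
      exact h2
    have hT0 : 0 ≤ ‖τ‖ ^ 2 := sq_nonneg _
    have hZ0' : 0 ≤ ‖ζ‖ ^ 2 := sq_nonneg _
    refine abs_le_of_sq_le_sq' ?_ (by positivity) |>.2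
    refine hmain.trans ?_
    simp only
    nlinarith [mul_nonneg hT0 hZ0', mul_nonneg hZ0' hZ0']

end Pool.Agent.Helper30.BD.CIR
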